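import Pool.Agent.Helper93_ABCT.StmtI

/-!
# FUNI (MP_a17fcb_ag)

Change of the logarithmic volume form by a monomial transformation.
-/

namespace PosGeom

namespace H53

variable {K : Type} [Field K] [Algebra ℂ K] {d : ℕ}

theorem dW_apply (g : Fin d → K) (D : Fin d → Derivation ℂ K K) :
    dW g D = (Matrix.of fun i j => D i (g j)).det := rfl

theorem prod_log (D : Derivation ℂ K K) (s : Finset (Fin d)) (y : Fin d → K) (e : Fin d → ℤ)
    (hy : ∀ j, y j ≠ 0) :
    D (∏ j ∈ s, y j ^ e j) = (∏ j ∈ s, y j ^ e j) * ∑ j ∈ s, (e j : K) * (D (y j) * (y j)⁻¹) := by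
  classical
  induction s using Finset.induction_on with
  | empty => simp
  | insert a s ha ih =>
    rw [Finset.prod_insert ha, Finset.sum_insert ha, Derivation.leibniz, ih,
      Derivation.leibniz_zpow, zpow_sub_one₀ (hy a)]
    simp only [smul_eq_mul, zsmul_eq_mul]
    ring

theorem prod_one_mul_det (y : Fin d → K) (D : Fin d → Derivation ℂ K K) :
    (∏ j, y j)⁻¹ * (Matrix.of fun i j => D i (y j)).det =
      (Matrix.of fun i j => D i (y j) * (y j)⁻¹).det := by
  have h := Matrix.det_mul_row (fun j => (y j)⁻¹) (Matrix.of fun i j => D i (y j))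
  rw [← Finset.prod_inv_distrib, ← h]
  congr 1
  ext i j
  simp only [Matrix.of_apply]
  ring

theorem funi : FuniStmt := by
  intro K _ _ d y y' A hy hy'
  have hy0 : ∀ i, y' i ≠ 0 := by
    intro i
    rw [hy' i]
    exact Finset.prod_ne_zero_iff.2 fun j _ => zpow_ne_zero _ (hy j)
  ext D
  have e1 : dL y' D = (∏ j, y' j)⁻¹ * dW y' D := rfl
  have e2 : (((A.det : ℤ) : K) • dL y) D = ((A.det : ℤ) : K) * ((∏ j, y j)⁻¹ * dW y D) := rfl
  rw [e1, e2, dW_apply, dW_apply, prod_one_mul_det, prod_one_mul_det]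
  have h3 : (Matrix.of fun i j => D i (y' j) * (y' j)⁻¹) =
      (Matrix.of fun i j => D i (y j) * (y j)⁻¹) * (A.map (Int.cast : ℤ → K)).transpose := by
    ext i j
    rw [Matrix.mul_apply]
    simp only [Matrix.of_apply, Matrix.transpose_apply, Matrix.map_apply]
    have h4 := prod_log (D i) Finset.univ y (A j) hy
    rw [← hy' j] at h4
    rw [h4, mul_comm (y' j), mul_assoc, mul_inv_cancel₀ (hy0 j), mul_one]
    exact Finset.sum_congr rfl fun k _ => mul_comm _ _
  rw [h3, Matrix.det_mul, Matrix.det_transpose, mul_comm]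
  congr 1
  have h5 := (Int.castRingHom K).map_det A
  simpa using h5.symm

end H53

end PosGeom
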