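import Pool.Agent.Helper93_ABCT.StmtK

/-!
# KDIM: the dimension drops by one at a facet (MP_a17fcb_ag)
-/

open MvPolynomial

namespace ABCT.H53

open ABCT PosGeom

theorem lam_span {ι : Type} [Fintype ι] {emb : ι → Finset ℕ} {S : FlatCell} {d : ℕ}
    {N : NCell ι d} {b : Fin d → (S.V →₀ ℤ)} {a : ℕ} (h : IsNormal emb S N b a) :
    AddSubgroup.toIntSubmodule S.Lam = Submodule.span ℤ (Set.range b) := by
  apply le_antisymm
  · intro m hm
    have h1 : m ∈ AddSubgroup.closure (Set.range b) := h.span hm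
    have h2 : AddSubgroup.closure (Set.range b) ≤
        (Submodule.span ℤ (Set.range b)).toAddSubgroup := by
      rw [AddSubgroup.closure_le]
      exact Submodule.subset_span
    exact h2 h1
  · rw [Submodule.span_le]
    rintro _ ⟨j, rfl⟩
    exact h.mem j

theorem lam_finrank {ι : Type} [Fintype ι] {emb : ι → Finset ℕ} {S : FlatCell} {d : ℕ}
    {N : NCell ι d} {b : Fin d → (S.V →₀ ℤ)} {a : ℕ} (h : IsNormal emb S N b a) :
    Module.finrank ℤ (AddSubgroup.toIntSubmodule S.Lam) = d ∧
      Module.Finite ℤ (AddSubgroup.toIntSubmodule S.Lam) := by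
  rw [lam_span h]
  constructor
  · rw [finrank_span_eq_card h.ind, Fintype.card_fin]
  · exact Module.Finite.span_of_finite ℤ (Set.finite_range b)

theorem pair_add {S S' : FlatCell} (φ : FacetData S S') (m n : S.V →₀ ℤ) :
    φ.pair (m + n) = φ.pair m + φ.pair n := by
  classical
  unfold FacetData.pair
  exact Finsupp.sum_add_index' (fun _ => by simp) (fun _ _ _ => by ring)

theorem kdim : KdimStmt := by
  intro ι _ emb S S' _ _ φ hφ d d' N N' b b' a a' hN hN'
  obtain ⟨θ, hθ, -⟩ := hφ.res
  obtain ⟨m₁, hm₁, hp₁⟩ := hφ.one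
  obtain ⟨f1, f2⟩ := lam_finrank hN
  obtain ⟨f1', -⟩ := lam_finrank hN'
  -- the pairing as a linear map
  let P : (S.V →₀ ℤ) →+ ℤ := AddMonoidHom.mk' φ.pair (pair_add φ)
  let f : AddSubgroup.toIntSubmodule S.Lam →ₗ[ℤ] ℤ :=
    P.toIntLinearMap.comp (Submodule.subtype _)
  have hsurj : Function.Surjective f := by
    intro n
    refine ⟨n • ⟨m₁, hm₁⟩, ?_⟩
    rw [map_smul]
    have : f ⟨m₁, hm₁⟩ = 1 := hp₁
    rw [this]
    simp
  have hrn := (LinearMap.ker f).finrank_quotient_add_finrank
  rw [(f.quotKerEquivOfSurjective hsurj).finrank_eq, Module.finrank_self, f1] at hrn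
  -- the kernel is isomorphic to the lattice of the facet
  let e : LinearMap.ker f ≃+ AddSubgroup.toIntSubmodule S'.Lam :=
    { toFun := fun m => θ ⟨m.1.1, m.1.2, m.2⟩
      invFun := fun m => ⟨⟨(θ.symm m).1, (θ.symm m).2.1⟩, (θ.symm m).2.2⟩
      left_inv := by
        intro m
        apply Subtype.ext
        apply Subtype.ext
        simp
      right_inv := by
        intro m
        exact θ.apply_symm_apply m
      map_add' := by
        intro m n
        apply Subtype.ext
        exact hθ _ _ _ rfl }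
  have he : Module.finrank ℤ (LinearMap.ker f) = Module.finrank ℤ (AddSubgroup.toIntSubmodule S'.Lam) :=
    LinearEquiv.finrank_eq e.toIntLinearEquiv
  rw [he, f1'] at hrn
  omega

end ABCT.H53
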