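import Pool.Agent.Helper32_ABCT.Vand

/-!
# Products over pairs of labels in list order (MP_a17fcb_ag)

`pp f I l = ∏_{x before y in l, x, y ∈ I} f x y`, with rules for concatenation.
-/

namespace ABCT.H53

open ABCT

section pp

variable {R : Type*} [CommMonoid R]

/-- product of `f x y` over the pairs `x` before `y` in the list with `x, y ∈ I` -/
def pp (f : ℕ → ℕ → R) (I : Finset ℕ) : List ℕ → R
  | [] => 1
  | a :: l => (if a ∈ I then ∏ y ∈ I ∩ l.toFinset, f a y else 1) * pp f I l

@[simp] theorem pp_nil (f : ℕ → ℕ → R) (I : Finset ℕ) : pp f I [] = 1 := rfl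

theorem pp_cons (f : ℕ → ℕ → R) (I : Finset ℕ) (a : ℕ) (l : List ℕ) :
    pp f I (a :: l) = (if a ∈ I then ∏ y ∈ I ∩ l.toFinset, f a y else 1) * pp f I l := rfl

theorem prod_getD (h : ℕ → R) : ∀ l : List ℕ,
    ∏ j ∈ Finset.range l.length, h (l.getD j 0) = (l.map h).prod
  | [] => by simp
  | a :: l => by
      rw [List.length_cons, Finset.prod_range_succ', List.map_cons, List.prod_cons, mul_comm]
      congr 1
      simpa using prod_getD h l

theorem prod_inter (f : ℕ → R) (I : Finset ℕ) (l : List ℕ) (hl : l.Nodup) :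
    ∏ j ∈ Finset.range l.length, (if l.getD j 0 ∈ I then f (l.getD j 0) else 1) =
      ∏ y ∈ I ∩ l.toFinset, f y := by
  rw [prod_getD (fun y => if y ∈ I then f y else 1) l, ← List.prod_toFinset _ hl,
    ← Finset.prod_filter]
  apply Finset.prod_congr _ (fun _ _ => rfl)
  ext y
  simp [and_comm]

theorem prsAll_prod (f : ℕ → ℕ → R) (I : Finset ℕ) : ∀ l : List ℕ, l.Nodup →
    ∏ p ∈ prsAll l I, f (l.getD p.1 0) (l.getD p.2 0) = pp f I l
  | [], _ => by simp [prsAll]
  | a :: l, h => by
      have hl : l.Nodup := (List.nodup_cons.1 h).2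
      have ih := prsAll_prod f I l hl
      unfold prsAll at ih ⊢
      rw [Finset.prod_filter, Finset.prod_product] at ih ⊢
      rw [List.length_cons, Finset.prod_range_succ', pp_cons, mul_comm]
      congr 1
      · rw [Finset.prod_range_succ']
        simp only [lt_self_iff_false, false_and, if_false, mul_one]
        by_cases ha : a ∈ I
        · rw [if_pos ha, ← prod_inter (f a) I l hl]
          apply Finset.prod_congr rfl
          intro j _
          simp [ha]
        · rw [if_neg ha]
          apply Finset.prod_eq_one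
          intro j _
          simp [ha]
      · rw [← ih]
        apply Finset.prod_congr rfl
        intro i _
        rw [Finset.prod_range_succ']
        simp

theorem pp_congr_I (f : ℕ → ℕ → R) {I J : Finset ℕ} : ∀ l : List ℕ,
    (∀ x ∈ l, x ∈ I ↔ x ∈ J) → pp f I l = pp f J l
  | [], _ => rfl
  | a :: l, h => by
      have e : I ∩ l.toFinset = J ∩ l.toFinset := by
        ext y
        simp only [Finset.mem_inter, List.mem_toFinset]
        constructor
        · rintro ⟨h1, h2⟩
          exact ⟨(h y (List.mem_cons_of_mem _ h2)).1 h1, h2⟩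
        · rintro ⟨h1, h2⟩
          exact ⟨(h y (List.mem_cons_of_mem _ h2)).2 h1, h2⟩
      rw [pp_cons, pp_cons, e, pp_congr_I f l (fun x hx => h x (List.mem_cons_of_mem _ hx))]
      congr 1
      by_cases ha : a ∈ I
      · rw [if_pos ha, if_pos ((h a List.mem_cons_self).1 ha)]
      · rw [if_neg ha, if_neg (fun h' => ha ((h a List.mem_cons_self).2 h'))]

theorem pp_congr (f g : ℕ → ℕ → R) (I : Finset ℕ) : ∀ l : List ℕ,
    (∀ x ∈ I, x ∈ l → ∀ y ∈ I, y ∈ l → f x y = g x y) → pp f I l = pp g I l
  | [], _ => rfl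
  | a :: l, h => by
      rw [pp_cons, pp_cons, pp_congr f g I l (fun x hx hxl y hy hyl =>
        h x hx (List.mem_cons_of_mem _ hxl) y hy (List.mem_cons_of_mem _ hyl))]
      congr 1
      by_cases ha : a ∈ I
      · rw [if_pos ha, if_pos ha]
        apply Finset.prod_congr rfl
        intro y hy
        rw [Finset.mem_inter, List.mem_toFinset] at hy
        exact h a ha List.mem_cons_self y hy.1 (List.mem_cons_of_mem _ hy.2)
      · rw [if_neg ha, if_neg ha]

theorem pp_append (f : ℕ → ℕ → R) (I : Finset ℕ) (l₂ : List ℕ) : ∀ l₁ : List ℕ,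
    (l₁ ++ l₂).Nodup → pp f I (l₁ ++ l₂) =
      pp f I l₁ * pp f I l₂ * ∏ x ∈ I ∩ l₁.toFinset, ∏ y ∈ I ∩ l₂.toFinset, f x y
  | [], _ => by simp
  | a :: l₁, h => by
      rw [List.cons_append] at h ⊢
      have h' := List.nodup_cons.1 h
      rw [pp_cons, pp_append f I l₂ l₁ h'.2, pp_cons]
      have hal : a ∉ l₁ := fun h1 => h'.1 (List.mem_append_left _ h1)
      by_cases ha : a ∈ I
      · rw [if_pos ha, if_pos ha]
        have e1 : I ∩ (l₁ ++ l₂).toFinset = (I ∩ l₁.toFinset) ∪ (I ∩ l₂.toFinset) := by
          rw [List.toFinset_append, Finset.inter_union_distrib_left]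
        have d1 : Disjoint (I ∩ l₁.toFinset) (I ∩ l₂.toFinset) := by
          rw [Finset.disjoint_left]
          intro x hx hx'
          rw [Finset.mem_inter, List.mem_toFinset] at hx hx'
          exact (List.nodup_append'.1 h'.2).2.2 hx.2 hx'.2
        have e2 : I ∩ (a :: l₁).toFinset = insert a (I ∩ l₁.toFinset) := by
          ext x
          simp only [List.toFinset_cons, Finset.mem_inter, Finset.mem_insert, List.mem_toFinset]
          constructor
          · rintro ⟨h1, h2 | h2⟩
            · exact Or.inl h2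
            · exact Or.inr ⟨h1, h2⟩
          · rintro (h1 | ⟨h1, h2⟩)
            · exact ⟨h1 ▸ ha, Or.inl h1⟩
            · exact ⟨h1, Or.inr h2⟩
        rw [e1, Finset.prod_union d1, e2, Finset.prod_insert (by simp [hal])]
        ac_rfl
      · rw [if_neg ha, if_neg ha]
        have e2 : I ∩ (a :: l₁).toFinset = I ∩ l₁.toFinset := by
          ext x
          simp only [List.toFinset_cons, Finset.mem_inter, Finset.mem_insert, List.mem_toFinset]
          constructor
          · rintro ⟨h1, h2 | h2⟩
            · exact absurd (h2 ▸ h1) ha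
            · exact ⟨h1, h2⟩
          · rintro ⟨h1, h2⟩
            exact ⟨h1, Or.inr h2⟩
        rw [e2]
        simp only [one_mul]

/-- a scalar in front -/
theorem pp_smul (s : R) (f : ℕ → ℕ → R) (I : Finset ℕ) : ∀ l : List ℕ, l.Nodup →
    pp (fun x y => s * f x y) I l = s ^ ((I ∩ l.toFinset).card.choose 2) * pp f I l
  | [], _ => by simp
  | a :: l, h => by
      have h' := List.nodup_cons.1 h
      rw [pp_cons, pp_cons, pp_smul s f I l h'.2]
      by_cases ha : a ∈ I
      · have e2 : I ∩ (a :: l).toFinset = insert a (I ∩ l.toFinset) := by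
          ext x
          simp only [List.toFinset_cons, Finset.mem_inter, Finset.mem_insert, List.mem_toFinset]
          constructor
          · rintro ⟨h1, h2 | h2⟩
            · exact Or.inl h2
            · exact Or.inr ⟨h1, h2⟩
          · rintro (h1 | ⟨h1, h2⟩)
            · exact ⟨h1 ▸ ha, Or.inl h1⟩
            · exact ⟨h1, Or.inr h2⟩
        rw [if_pos ha, if_pos ha, e2, Finset.card_insert_of_notMem (by simp [h'.1]),
          Finset.prod_mul_distrib, Finset.prod_const, Nat.choose_succ_succ, Nat.choose_one_right,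
          pow_add]
        ac_rfl
      · have e2 : I ∩ (a :: l).toFinset = I ∩ l.toFinset := by
          ext x
          simp only [List.toFinset_cons, Finset.mem_inter, Finset.mem_insert, List.mem_toFinset]
          constructor
          · rintro ⟨h1, h2 | h2⟩
            · exact absurd (h2 ▸ h1) ha
            · exact ⟨h1, h2⟩
          · rintro ⟨h1, h2⟩
            exact ⟨h1, Or.inr h2⟩
        rw [if_neg ha, if_neg ha, e2, one_mul, one_mul]

theorem pp_singleton (f : ℕ → ℕ → R) (I : Finset ℕ) (a : ℕ) : pp f I [a] = 1 := by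
  simp [pp_cons]

/-- an element not in `I` can be dropped from the list -/
theorem pp_drop (f : ℕ → ℕ → R) (I : Finset ℕ) (L T : List ℕ) (i : ℕ) (hi : i ∉ I)
    (h : (L ++ i :: T).Nodup) : pp f I (L ++ i :: T) = pp f I (L ++ T) := by
  have h2 : (L ++ T).Nodup := by
    rw [List.nodup_append'] at h ⊢
    exact ⟨h.1, (List.nodup_cons.1 h.2.1).2, fun x hx hx' => h.2.2 hx (List.mem_cons_of_mem _ hx')⟩
  rw [pp_append f I _ _ h, pp_append f I _ _ h2, pp_cons, if_neg hi, one_mul]
  have e2 : I ∩ (i :: T).toFinset = I ∩ T.toFinset := by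
    ext x
    simp only [List.toFinset_cons, Finset.mem_inter, Finset.mem_insert, List.mem_toFinset]
    constructor
    · rintro ⟨h1, h2 | h2⟩
      · exact absurd (h2 ▸ h1) hi
      · exact ⟨h1, h2⟩
    · rintro ⟨h1, h2⟩
      exact ⟨h1, Or.inr h2⟩
  rw [e2]

end pp

/-- `Q` by pairs of labels -/
theorem Q_eq {R : Type*} [CommRing R] (l : List ℕ) (hl : l.Nodup) (r : ℕ) (κ : R) (c t : ℕ → R)
    (I : Finset ℕ) : Q l r κ c t I = if I ∈ l.toFinset.powersetCard r then
      κ * (∏ i ∈ I, c i) * pp (fun x y => t y - t x) I l else 0 := by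
  unfold Q
  rw [prsAll_prod (fun x y => t y - t x) I l hl]

end ABCT.H53
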