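import Pool.Agent.Helper32_ABCT.Stmts2
import Pool.Agent.Helper53_ABCT.Pairs

/-!
# VSMO: smoothing of a 2-sum (MP_a17fcb_ag)
-/

open MvPolynomial Filter Topology

namespace ABCT.H53

open ABCT

/-- change of the pair function by a coboundary -/
theorem pp_hh {R : Type*} [CommMonoid R] (f : ℕ → ℕ → R) (h : ℕ → R) (I : Finset ℕ) :
    ∀ l : List ℕ, l.Nodup →
    pp (fun x y => f x y * (h x * h y)) I l * ∏ x ∈ I ∩ l.toFinset, h x =
      pp f I l * ∏ x ∈ I ∩ l.toFinset, h x ^ (I ∩ l.toFinset).card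
  | [], _ => by simp
  | a :: l, hn => by
      have hn' := List.nodup_cons.1 hn
      have ih := pp_hh f h I l hn'.2
      rw [pp_cons, pp_cons]
      by_cases ha : a ∈ I
      · have e2 : I ∩ (a :: l).toFinset = insert a (I ∩ l.toFinset) := by
          ext x
          simp only [List.toFinset_cons, Finset.mem_inter, Finset.mem_insert, List.mem_toFinset]
          constructor
          · rintro ⟨h1, h2 | h2⟩
            · exact Or.inl h2
            · exact Or.inr ⟨h1, h2⟩
          · rintro (h1 | ⟨h1, h2⟩)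
            · exact ⟨h1 ▸ ha, Or.inl h1⟩
            · exact ⟨h1, Or.inr h2⟩
        have hal : a ∉ I ∩ l.toFinset := by simp [hn'.1]
        rw [if_pos ha, if_pos ha, e2, Finset.prod_insert hal, Finset.prod_insert hal,
          Finset.card_insert_of_notMem hal]
        set n := (I ∩ l.toFinset).card with hnn
        have e3 : ∏ y ∈ I ∩ l.toFinset, f a y * (h a * h y) =
            (∏ y ∈ I ∩ l.toFinset, f a y) * (h a ^ n * ∏ y ∈ I ∩ l.toFinset, h y) := by
          rw [Finset.prod_mul_distrib, Finset.prod_mul_distrib, Finset.prod_const]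
        have e4 : ∏ x ∈ I ∩ l.toFinset, h x ^ (n + 1) =
            (∏ x ∈ I ∩ l.toFinset, h x ^ n) * ∏ x ∈ I ∩ l.toFinset, h x := by
          rw [← Finset.prod_mul_distrib]
          exact Finset.prod_congr rfl (fun x _ => pow_succ _ _)
        rw [e3, e4, pow_succ]
        calc (∏ y ∈ I ∩ l.toFinset, f a y) * (h a ^ n * ∏ y ∈ I ∩ l.toFinset, h y) *
              pp (fun x y => f x y * (h x * h y)) I l * (h a * ∏ x ∈ I ∩ l.toFinset, h x)
            = (∏ y ∈ I ∩ l.toFinset, f a y) * (h a ^ n * h a) * (∏ y ∈ I ∩ l.toFinset, h y) *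
              (pp (fun x y => f x y * (h x * h y)) I l * ∏ x ∈ I ∩ l.toFinset, h x) := by ac_rfl
          _ = (∏ y ∈ I ∩ l.toFinset, f a y) * (h a ^ n * h a) * (∏ y ∈ I ∩ l.toFinset, h y) *
              (pp f I l * ∏ x ∈ I ∩ l.toFinset, h x ^ n) := by rw [ih]
          _ = _ := by ac_rfl
      · have e2 : I ∩ (a :: l).toFinset = I ∩ l.toFinset := by
          ext x
          simp only [List.toFinset_cons, Finset.mem_inter, Finset.mem_insert, List.mem_toFinset]
          constructor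
          · rintro ⟨h1, h2 | h2⟩
            · exact absurd (h2 ▸ h1) ha
            · exact ⟨h1, h2⟩
          · rintro ⟨h1, h2⟩
            exact ⟨h1, Or.inr h2⟩
        rw [if_neg ha, if_neg ha, e2, one_mul, one_mul, ih]

theorem Q_mem {R : Type*} [CommRing R] {l : List ℕ} {r : ℕ} {κ : R} {c t : ℕ → R}
    {I : Finset ℕ} (h : Q l r κ c t I ≠ 0) : I ⊆ l.toFinset ∧ I.card = r := by
  unfold Q at h
  by_contra h'
  rw [← Finset.mem_powersetCard] at h'
  rw [if_neg h'] at h
  exact h rfl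

theorem expo (d a : ℕ) : a.choose 2 + (d + 1).choose 2 =
    d * a + ((d + 1 - a).choose 2 + (a - d).choose 2) := by
  rcases le_or_gt a d with h | h
  · obtain ⟨k, rfl⟩ := Nat.exists_eq_add_of_le h
    have e1 : a - (a + k) = 0 := by omega
    have e2 : a + k + 1 - a = k + 1 := by omega
    rw [e1, e2]
    have : ((a.choose 2 + (a + k + 1).choose 2 : ℕ) : ℚ) =
        (((a + k) * a + ((k + 1).choose 2 + (0 : ℕ).choose 2) : ℕ) : ℚ) := by
      push_cast
      rw [Nat.cast_choose_two, Nat.cast_choose_two, Nat.cast_choose_two, Nat.cast_choose_two]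
      push_cast
      ring
    exact_mod_cast this
  · obtain ⟨k, rfl⟩ := Nat.exists_eq_add_of_le (Nat.succ_le_of_lt h)
    have e1 : d.succ + k - d = k + 1 := by omega
    have e2 : d + 1 - (d.succ + k) = 0 := by omega
    rw [e1, e2]
    have : (((d.succ + k).choose 2 + (d + 1).choose 2 : ℕ) : ℚ) =
        ((d * (d.succ + k) + ((0 : ℕ).choose 2 + (k + 1).choose 2) : ℕ) : ℚ) := by
      push_cast
      rw [Nat.cast_choose_two, Nat.cast_choose_two, Nat.cast_choose_two, Nat.cast_choose_two]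
      push_cast
      ring
    exact_mod_cast this

theorem expo_zero {d a : ℕ} (h1 : a ≠ d) (h2 : a ≠ d + 1) :
    (d + 1 - a).choose 2 + (a - d).choose 2 ≠ 0 := by
  rcases lt_or_gt_of_ne h1 with h | h
  · have : 0 < (d + 1 - a).choose 2 := Nat.choose_pos (by omega)
    omega
  · have : 0 < (a - d).choose 2 := Nat.choose_pos (by omega)
    omega

/-- value of a Vandermonde vector at a set without the extra label -/
theorem Q_val1 (L R : List ℕ) (q m : ℕ) (κ : ℝ) (c t : ℕ → ℝ) (J : Finset ℕ)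
    (hn : (L ++ [q] ++ R).Nodup) (hJ : J ⊆ L.toFinset ∪ R.toFinset) (hq : q ∉ J)
    (hm : J.card = m) :
    Q (L ++ [q] ++ R) m κ c t J = κ * ((∏ z ∈ J ∩ L.toFinset, c z) * ∏ z ∈ J ∩ R.toFinset, c z) *
      (pp (fun x y => t y - t x) J L * pp (fun x y => t y - t x) J R *
        ∏ x ∈ J ∩ L.toFinset, ∏ y ∈ J ∩ R.toFinset, (t y - t x)) := by
  have hn' : (L ++ q :: R).Nodup := by simpa using hn
  have hLR : (L ++ R).Nodup := by
    rw [List.nodup_append'] at hn' ⊢
    exact ⟨hn'.1, (List.nodup_cons.1 hn'.2.1).2, fun x hx hx' =>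
      hn'.2.2 hx (List.mem_cons_of_mem _ hx')⟩
  have hdisj : Disjoint (J ∩ L.toFinset) (J ∩ R.toFinset) := by
    rw [Finset.disjoint_left]
    intro z hz hz'
    rw [Finset.mem_inter, List.mem_toFinset] at hz hz'
    exact (List.nodup_append'.1 hLR).2.2 hz.2 hz'.2
  have hdec : J = (J ∩ L.toFinset) ∪ (J ∩ R.toFinset) := by
    rw [← Finset.inter_union_distrib_left, Finset.inter_eq_left.2 hJ]
  rw [Q_eq _ hn, if_pos, show L ++ [q] ++ R = L ++ q :: R by simp, pp_drop _ _ _ _ _ hq hn',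
    pp_append _ _ _ _ hLR]
  · congr 2
    conv_lhs => rw [hdec]
    rw [Finset.prod_union hdisj]
  · rw [Finset.mem_powersetCard]
    refine ⟨?_, hm⟩
    intro z hz
    have := hJ hz
    simp only [List.toFinset_append, Finset.mem_union] at this ⊢
    tauto

/-- value of a Vandermonde vector at a set with the extra label -/
theorem Q_val2 (L R : List ℕ) (q m : ℕ) (κ : ℝ) (c t : ℕ → ℝ) (J : Finset ℕ)
    (hn : (L ++ [q] ++ R).Nodup) (hJ : J ⊆ L.toFinset ∪ R.toFinset) (hq : q ∉ J)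
    (hm : J.card + 1 = m) :
    Q (L ++ [q] ++ R) m κ c t (insert q J) =
      κ * (c q * ((∏ z ∈ J ∩ L.toFinset, c z) * ∏ z ∈ J ∩ R.toFinset, c z)) *
      (pp (fun x y => t y - t x) J L * pp (fun x y => t y - t x) J R *
        (∏ x ∈ J ∩ L.toFinset, ∏ y ∈ J ∩ R.toFinset, (t y - t x)) *
        ((∏ x ∈ J ∩ L.toFinset, (t q - t x)) * ∏ y ∈ J ∩ R.toFinset, (t y - t q))) := by
  have hnLq : (L ++ [q]).Nodup := (List.nodup_append'.1 hn).1
  have hqL : q ∉ L := fun h => (List.nodup_append'.1 hnLq).2.2 h (by simp)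
  have hqR : q ∉ R := fun h => (List.nodup_append'.1 hn).2.2 (by simp) h
  have dLR : ∀ z ∈ L, z ∉ R := fun z h h' =>
    (List.nodup_append'.1 hn).2.2 (List.mem_append_left _ h) h'
  have hdisj : Disjoint (J ∩ L.toFinset) (J ∩ R.toFinset) := by
    rw [Finset.disjoint_left]
    intro z hz hz'
    rw [Finset.mem_inter, List.mem_toFinset] at hz hz'
    exact dLR z hz.2 hz'.2
  have hdec : J = (J ∩ L.toFinset) ∪ (J ∩ R.toFinset) := by
    rw [← Finset.inter_union_distrib_left, Finset.inter_eq_left.2 hJ]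
  have i1 : insert q J ∩ L.toFinset = J ∩ L.toFinset := by
    ext z
    simp only [Finset.mem_inter, Finset.mem_insert, List.mem_toFinset]
    constructor
    · rintro ⟨h1 | h1, h2⟩
      · exact absurd (h1 ▸ h2) hqL
      · exact ⟨h1, h2⟩
    · rintro ⟨h1, h2⟩
      exact ⟨Or.inr h1, h2⟩
  have i2 : insert q J ∩ R.toFinset = J ∩ R.toFinset := by
    ext z
    simp only [Finset.mem_inter, Finset.mem_insert, List.mem_toFinset]
    constructor
    · rintro ⟨h1 | h1, h2⟩
      · exact absurd (h1 ▸ h2) hqR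
      · exact ⟨h1, h2⟩
    · rintro ⟨h1, h2⟩
      exact ⟨Or.inr h1, h2⟩
  have i3 : insert q J ∩ [q].toFinset = {q} := by
    ext z
    simp only [Finset.mem_inter, Finset.mem_insert, List.toFinset_cons, List.toFinset_nil,
      Finset.mem_singleton, Finset.notMem_empty, or_false]
    tauto
  have i4 : insert q J ∩ (L ++ [q]).toFinset = (J ∩ L.toFinset) ∪ {q} := by
    rw [List.toFinset_append, Finset.inter_union_distrib_left, i1, i3]
  have dq : Disjoint (J ∩ L.toFinset) {q} := by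
    rw [Finset.disjoint_singleton_right]
    simp [hq]
  rw [Q_eq _ hn, if_pos, pp_append _ _ _ _ hn, pp_append _ _ _ _ hnLq, i1, i2, i3, i4,
    Finset.prod_union dq, Finset.prod_insert hq, pp_singleton,
    pp_congr_I (J := J) _ L, pp_congr_I (J := J) _ R]
  · have e : ∏ z ∈ J, c z = (∏ z ∈ J ∩ L.toFinset, c z) * ∏ z ∈ J ∩ R.toFinset, c z := by
      conv_lhs => rw [hdec]
      rw [Finset.prod_union hdisj]
    rw [e]
    simp only [Finset.prod_singleton, mul_one]
    ring
  · intro z hz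
    rw [Finset.mem_insert]
    exact ⟨fun h => h.resolve_left (fun e => hqR (e ▸ hz)), Or.inr⟩
  · intro z hz
    rw [Finset.mem_insert]
    exact ⟨fun h => h.resolve_left (fun e => hqL (e ▸ hz)), Or.inr⟩
  · rw [Finset.mem_powersetCard, Finset.card_insert_of_notMem hq]
    refine ⟨?_, hm⟩
    intro z hz
    rw [Finset.mem_insert] at hz
    rcases hz with rfl | hz
    · simp
    · have := hJ hz
      simp only [List.toFinset_append, Finset.mem_union] at this ⊢
      tauto

theorem smooth_mem (L A R : List ℕ) (r d q : ℕ) (hn : (L ++ A ++ R).Nodup)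
    (hq : q ∉ L ++ A ++ R) (y x : Finset ℕ → ℝ) (hy : y ∈ ZV (A ++ [q]) (d + 1))
    (hx : x ∈ ZV (L ++ [q] ++ R) r) :
    comb A.toFinset q y x ∈ closure (ZV (L ++ A ++ R) (d + r)) := by
  obtain ⟨κ₁, c₁, t₁, hκ₁, hc₁, ht₁, rfl⟩ := hy
  obtain ⟨κ₂, c₂, t₂, hκ₂, hc₂, ht₂, rfl⟩ := hx
  -- list facts
  have hLA : (L ++ A).Nodup := (List.nodup_append'.1 hn).1
  have hnL : L.Nodup := (List.nodup_append'.1 hLA).1
  have hnA : A.Nodup := (List.nodup_append'.1 hLA).2.1
  have hnR : R.Nodup := (List.nodup_append'.1 hn).2.1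
  have dLA : ∀ z ∈ L, z ∉ A := fun z h h' => (List.nodup_append'.1 hLA).2.2 h h'
  have dLR : ∀ z ∈ L, z ∉ R := fun z h h' =>
    (List.nodup_append'.1 hn).2.2 (List.mem_append_left _ h) h'
  have dAR : ∀ z ∈ A, z ∉ R := fun z h h' =>
    (List.nodup_append'.1 hn).2.2 (List.mem_append_right _ h) h'
  have hqL : q ∉ L := fun h => hq (List.mem_append_left _ (List.mem_append_left _ h))
  have hqA : q ∉ A := fun h => hq (List.mem_append_left _ (List.mem_append_right _ h))
  have hqR : q ∉ R := fun h => hq (List.mem_append_right _ h)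
  have hnAq : (A ++ [q]).Nodup := by
    rw [List.nodup_append']
    exact ⟨hnA, List.nodup_singleton q, fun z h h' => hqA ((List.mem_singleton.1 h') ▸ h)⟩
  have hnLq : (L ++ [q]).Nodup := by
    rw [List.nodup_append']
    exact ⟨hnL, List.nodup_singleton q, fun z h h' => hqL ((List.mem_singleton.1 h') ▸ h)⟩
  have hnB : (L ++ [q] ++ R).Nodup := by
    rw [List.nodup_append']
    refine ⟨hnLq, hnR, fun z h h' => ?_⟩
    rcases List.mem_append.1 h with h1 | h1
    · exact dLR z h1 h'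
    · exact hqR ((List.mem_singleton.1 h1) ▸ h')
  -- order facts
  rw [List.pairwise_append] at ht₁
  obtain ⟨ht₁A, -, ht₁q⟩ := ht₁
  have e1pos : ∀ z ∈ A, 0 < t₁ q - t₁ z := fun z h => sub_pos.2 (ht₁q z h q (by simp))
  rw [List.pairwise_append, List.pairwise_append] at ht₂
  obtain ⟨⟨ht₂L, -, ht₂Lq⟩, ht₂R, ht₂LR⟩ := ht₂
  have DL : ∀ z ∈ L, 0 < t₂ q - t₂ z := fun z h => sub_pos.2 (ht₂Lq z h q (by simp))
  have DR : ∀ z ∈ R, 0 < t₂ z - t₂ q := fun z h => sub_pos.2 (ht₂LR q (by simp) z h)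
  -- parameters
  obtain ⟨g, hg⟩ : ∃ g, g = c₂ q / c₁ q := ⟨_, rfl⟩
  have hgpos : 0 < g := hg ▸ div_pos (hc₂ q) (hc₁ q)
  obtain ⟨K, hK⟩ : ∃ K, K = κ₁ * κ₂ * c₁ q / g ^ d := ⟨_, rfl⟩
  have hKpos : 0 < K := hK ▸ div_pos (mul_pos (mul_pos hκ₁ hκ₂) (hc₁ q)) (pow_pos hgpos _)
  obtain ⟨τ, hτ⟩ : ∃ τ : ℕ → ℝ, ∀ z, τ z = (t₁ q - t₁ z)⁻¹ := ⟨_, fun z => rfl⟩
  have τpos : ∀ z ∈ A, 0 < τ z := fun z h => by rw [hτ]; exact inv_pos.2 (e1pos z h)
  obtain ⟨C, hC⟩ : ∃ C : ℝ → ℕ → ℝ, ∀ s z, C s z = if z ∈ A then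
      g * c₁ z * (t₁ q - t₁ z) ^ d / s ^ d else if z ∈ L then c₂ z / (t₂ q - t₂ z) ^ d else
      if z ∈ R then c₂ z / (t₂ z - t₂ q) ^ d else 1 := ⟨_, fun s z => rfl⟩
  obtain ⟨T, hT⟩ : ∃ T : ℝ → ℕ → ℝ, ∀ s z, T s z = if z ∈ A then t₂ q + s * τ z else t₂ z :=
    ⟨_, fun s z => rfl⟩
  have CA : ∀ s, ∀ z ∈ A, C s z = g * c₁ z * (t₁ q - t₁ z) ^ d / s ^ d := fun s z h => by
    rw [hC, if_pos h]
  have CL : ∀ s, ∀ z ∈ L, C s z = c₂ z / (t₂ q - t₂ z) ^ d := fun s z h => by
    rw [hC, if_neg (dLA z h), if_pos h]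
  have CR : ∀ s, ∀ z ∈ R, C s z = c₂ z / (t₂ z - t₂ q) ^ d := fun s z h => by
    rw [hC, if_neg (fun h' => dAR z h' h), if_neg (fun h' => dLR z h' h), if_pos h]
  have TA : ∀ s, ∀ z ∈ A, T s z = t₂ q + s * τ z := fun s z h => by rw [hT, if_pos h]
  have TL : ∀ s, ∀ z ∈ L, T s z = t₂ z := fun s z h => by rw [hT, if_neg (dLA z h)]
  have TR : ∀ s, ∀ z ∈ R, T s z = t₂ z := fun s z h => by rw [hT, if_neg (fun h' => dAR z h' h)]
  -- the value at a basis
  obtain ⟨G, hG⟩ : ∃ G : Finset ℕ → ℝ → ℝ, ∀ I s, G I s =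
      (∏ z ∈ I ∩ A.toFinset, (g * c₁ z * (t₁ q - t₁ z) ^ d)) *
      (∏ z ∈ I ∩ L.toFinset, (c₂ z / (t₂ q - t₂ z) ^ d)) *
      (∏ z ∈ I ∩ R.toFinset, (c₂ z / (t₂ z - t₂ q) ^ d)) *
      (pp (fun x y => t₂ y - t₂ x) I L * pp (fun x y => t₂ y - t₂ x) I R *
        pp (fun x y => τ y - τ x) I A) *
      ((∏ x ∈ I ∩ L.toFinset, ∏ z ∈ I ∩ R.toFinset, (t₂ z - t₂ x)) *
      (∏ x ∈ I ∩ L.toFinset, ∏ a ∈ I ∩ A.toFinset, (t₂ q + s * τ a - t₂ x)) *
      (∏ a ∈ I ∩ A.toFinset, ∏ z ∈ I ∩ R.toFinset, (t₂ z - (t₂ q + s * τ a)))) :=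
    ⟨_, fun I s => rfl⟩
  have dA : ∀ I : Finset ℕ, Disjoint (I ∩ L.toFinset) (I ∩ A.toFinset) := fun I => by
    rw [Finset.disjoint_left]
    intro z hz hz'
    rw [Finset.mem_inter, List.mem_toFinset] at hz hz'
    exact dLA z hz.2 hz'.2
  have dR : ∀ I : Finset ℕ, Disjoint ((I ∩ L.toFinset) ∪ (I ∩ A.toFinset)) (I ∩ R.toFinset) :=
    fun I => by
    rw [Finset.disjoint_left]
    intro z hz hz'
    rw [Finset.mem_union, Finset.mem_inter, Finset.mem_inter, List.mem_toFinset,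
      List.mem_toFinset] at hz
    rw [Finset.mem_inter, List.mem_toFinset] at hz'
    rcases hz with hz | hz
    · exact dLR z hz.2 hz'.2
    · exact dAR z hz.2 hz'.2
  have val : ∀ I ∈ (L ++ A ++ R).toFinset.powersetCard (d + r), ∀ s : ℝ, 0 < s →
      Q (L ++ A ++ R) (d + r) (K * s ^ ((d + 1).choose 2)) (C s) (T s) I =
        s ^ ((d + 1 - (I ∩ A.toFinset).card).choose 2 + ((I ∩ A.toFinset).card - d).choose 2) *
          (K * G I s) := by
    intro I hI s hs
    rw [Q_eq _ hn, if_pos hI, hG]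
    have hsub := (Finset.mem_powersetCard.1 hI).1
    have hdec : I = ((I ∩ L.toFinset) ∪ (I ∩ A.toFinset)) ∪ (I ∩ R.toFinset) := by
      rw [List.toFinset_append, List.toFinset_append] at hsub
      rw [← Finset.inter_union_distrib_left, ← Finset.inter_union_distrib_left,
        Finset.inter_eq_left.2 hsub]
    have eC : ∏ i ∈ I, C s i = (∏ z ∈ I ∩ L.toFinset, (c₂ z / (t₂ q - t₂ z) ^ d)) *
        ((∏ z ∈ I ∩ A.toFinset, (g * c₁ z * (t₁ q - t₁ z) ^ d)) /
          s ^ (d * (I ∩ A.toFinset).card)) *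
        (∏ z ∈ I ∩ R.toFinset, (c₂ z / (t₂ z - t₂ q) ^ d)) := by
      conv_lhs => rw [hdec]
      rw [Finset.prod_union (dR I), Finset.prod_union (dA I)]
      congr 1
      · congr 1
        · apply Finset.prod_congr rfl
          intro z hz
          exact CL s z (List.mem_toFinset.1 (Finset.mem_inter.1 hz).2)
        · rw [pow_mul, ← Finset.prod_const, ← Finset.prod_div_distrib]
          apply Finset.prod_congr rfl
          intro z hz
          exact CA s z (List.mem_toFinset.1 (Finset.mem_inter.1 hz).2)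
      · apply Finset.prod_congr rfl
        intro z hz
        exact CR s z (List.mem_toFinset.1 (Finset.mem_inter.1 hz).2)
    have e1 : pp (fun x y => T s y - T s x) I L = pp (fun x y => t₂ y - t₂ x) I L :=
      pp_congr _ _ _ _ (fun x _ hx y _ hy => by rw [TL s x hx, TL s y hy])
    have e2 : pp (fun x y => T s y - T s x) I R = pp (fun x y => t₂ y - t₂ x) I R :=
      pp_congr _ _ _ _ (fun x _ hx y _ hy => by rw [TR s x hx, TR s y hy])
    have e3 : pp (fun x y => T s y - T s x) I A =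
        s ^ ((I ∩ A.toFinset).card.choose 2) * pp (fun x y => τ y - τ x) I A := by
      rw [← pp_smul s _ I A hnA]
      exact pp_congr _ _ _ _ (fun x _ hx y _ hy => by rw [TA s x hx, TA s y hy]; ring)
    have e4 : ∏ x ∈ I ∩ L.toFinset, ∏ y ∈ I ∩ A.toFinset, (T s y - T s x) =
        ∏ x ∈ I ∩ L.toFinset, ∏ a ∈ I ∩ A.toFinset, (t₂ q + s * τ a - t₂ x) := by
      apply Finset.prod_congr rfl
      intro x hx
      apply Finset.prod_congr rfl
      intro a ha
      rw [TL s x (List.mem_toFinset.1 (Finset.mem_inter.1 hx).2),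
        TA s a (List.mem_toFinset.1 (Finset.mem_inter.1 ha).2)]
    have e5 : ∏ x ∈ I ∩ (L ++ A).toFinset, ∏ y ∈ I ∩ R.toFinset, (T s y - T s x) =
        (∏ x ∈ I ∩ L.toFinset, ∏ z ∈ I ∩ R.toFinset, (t₂ z - t₂ x)) *
        (∏ a ∈ I ∩ A.toFinset, ∏ z ∈ I ∩ R.toFinset, (t₂ z - (t₂ q + s * τ a))) := by
      rw [List.toFinset_append, Finset.inter_union_distrib_left, Finset.prod_union (dA I)]
      congr 1
      · apply Finset.prod_congr rfl
        intro x hx
        apply Finset.prod_congr rfl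
        intro a ha
        rw [TL s x (List.mem_toFinset.1 (Finset.mem_inter.1 hx).2),
          TR s a (List.mem_toFinset.1 (Finset.mem_inter.1 ha).2)]
      · apply Finset.prod_congr rfl
        intro x hx
        apply Finset.prod_congr rfl
        intro a ha
        rw [TA s x (List.mem_toFinset.1 (Finset.mem_inter.1 hx).2),
          TR s a (List.mem_toFinset.1 (Finset.mem_inter.1 ha).2)]
    rw [eC, pp_append _ _ _ _ hn, pp_append _ _ _ _ hLA, e1, e2, e3, e4, e5]
    have hexp : s ^ ((I ∩ A.toFinset).card.choose 2) * s ^ ((d + 1).choose 2) =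
        s ^ (d * (I ∩ A.toFinset).card) *
        s ^ ((d + 1 - (I ∩ A.toFinset).card).choose 2 + ((I ∩ A.toFinset).card - d).choose 2) := by
      rw [← pow_add, ← pow_add, expo]
    have hsd : s ^ (d * (I ∩ A.toFinset).card) ≠ 0 := (pow_pos hs _).ne'
    set a1 := s ^ ((I ∩ A.toFinset).card.choose 2)
    set a2 := s ^ ((d + 1).choose 2)
    set a3 := s ^ (d * (I ∩ A.toFinset).card)
    set a4 := s ^ ((d + 1 - (I ∩ A.toFinset).card).choose 2 +
      ((I ∩ A.toFinset).card - d).choose 2)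
    have h5 : a2 * a3⁻¹ * a1 = a4 := by
      rw [mul_comm a2, mul_assoc, mul_comm a2, hexp, ← mul_assoc, inv_mul_cancel₀ hsd, one_mul]
    rw [← h5]
    ring
  -- evaluation of the two sides
  have valA1 : ∀ I : Finset ℕ, (I ∩ A.toFinset).card = d + 1 → q ∉ I →
      Q (A ++ [q]) (d + 1) κ₁ c₁ t₁ (I ∩ A.toFinset) =
        κ₁ * (∏ z ∈ I ∩ A.toFinset, c₁ z) * pp (fun x y => t₁ y - t₁ x) I A := by
    intro I hI hqI
    have := Q_val1 A [] q (d + 1) κ₁ c₁ t₁ (I ∩ A.toFinset) (by simpa using hnAq) (by simp)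
      (by simp [hqI]) hI
    rw [List.append_nil] at this
    rw [this, Finset.inter_assoc, Finset.inter_self,
      pp_congr_I (J := I) _ A (by intro z hz; simp [hz])]
    simp
  have valA2 : ∀ I : Finset ℕ, (I ∩ A.toFinset).card = d → q ∉ I →
      Q (A ++ [q]) (d + 1) κ₁ c₁ t₁ (insert q (I ∩ A.toFinset)) =
        κ₁ * (c₁ q * ∏ z ∈ I ∩ A.toFinset, c₁ z) * (pp (fun x y => t₁ y - t₁ x) I A *
          ∏ a ∈ I ∩ A.toFinset, (t₁ q - t₁ a)) := by
    intro I hI hqI
    have := Q_val2 A [] q (d + 1) κ₁ c₁ t₁ (I ∩ A.toFinset) (by simpa using hnAq) (by simp)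
      (by simp [hqI]) (by rw [hI])
    rw [List.append_nil] at this
    rw [this, Finset.inter_assoc, Finset.inter_self,
      pp_congr_I (J := I) _ A (by intro z hz; simp [hz])]
    simp
  have hJL : ∀ I : Finset ℕ, (I \ A.toFinset) ∩ L.toFinset = I ∩ L.toFinset := fun I => by
    ext z
    simp only [Finset.mem_inter, Finset.mem_sdiff, List.mem_toFinset]
    constructor
    · rintro ⟨⟨h1, _⟩, h2⟩
      exact ⟨h1, h2⟩
    · rintro ⟨h1, h2⟩
      exact ⟨⟨h1, dLA z h2⟩, h2⟩
  have hJR : ∀ I : Finset ℕ, (I \ A.toFinset) ∩ R.toFinset = I ∩ R.toFinset := fun I => by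
    ext z
    simp only [Finset.mem_inter, Finset.mem_sdiff, List.mem_toFinset]
    constructor
    · rintro ⟨⟨h1, _⟩, h2⟩
      exact ⟨h1, h2⟩
    · rintro ⟨h1, h2⟩
      exact ⟨⟨h1, fun h => dAR z h h2⟩, h2⟩
  have hpL : ∀ I : Finset ℕ, pp (fun x y => t₂ y - t₂ x) (I \ A.toFinset) L =
      pp (fun x y => t₂ y - t₂ x) I L := fun I => pp_congr_I _ L (by
    intro z hz
    simp [dLA z hz])
  have hpR : ∀ I : Finset ℕ, pp (fun x y => t₂ y - t₂ x) (I \ A.toFinset) R =
      pp (fun x y => t₂ y - t₂ x) I R := fun I => pp_congr_I _ R (by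
    intro z hz
    have : z ∉ A := fun h => dAR z h hz
    simp [this])
  have hsubJ : ∀ I ∈ (L ++ A ++ R).toFinset.powersetCard (d + r),
      I \ A.toFinset ⊆ L.toFinset ∪ R.toFinset := by
    intro I hI z hz
    have := (Finset.mem_powersetCard.1 hI).1 (Finset.mem_sdiff.1 hz).1
    have h2 := (Finset.mem_sdiff.1 hz).2
    simp only [List.toFinset_append, Finset.mem_union] at this ⊢
    tauto
  have hcard : ∀ I ∈ (L ++ A ++ R).toFinset.powersetCard (d + r),
      (I ∩ A.toFinset).card + (I \ A.toFinset).card = d + r := by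
    intro I hI
    rw [Finset.card_inter_add_card_sdiff, (Finset.mem_powersetCard.1 hI).2]
  have hqI : ∀ I ∈ (L ++ A ++ R).toFinset.powersetCard (d + r), q ∉ I := by
    intro I hI h
    exact hq (List.mem_toFinset.1 ((Finset.mem_powersetCard.1 hI).1 h))
  have hpne : ∀ I : Finset ℕ, ∏ z ∈ I ∩ A.toFinset, (t₁ q - t₁ z) ≠ 0 := fun I => by
    rw [Finset.prod_ne_zero_iff]
    intro z hz
    exact (e1pos z (List.mem_toFinset.1 (Finset.mem_inter.1 hz).2)).ne'
  have hmoeb : ∀ I : Finset ℕ, pp (fun x y => t₁ y - t₁ x) I A *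
      ∏ z ∈ I ∩ A.toFinset, (t₁ q - t₁ z) = pp (fun x y => τ y - τ x) I A *
      ∏ z ∈ I ∩ A.toFinset, (t₁ q - t₁ z) ^ (I ∩ A.toFinset).card := by
    intro I
    rw [← pp_hh _ (fun z => t₁ q - t₁ z) I A hnA]
    congr 1
    apply pp_congr
    intro x _ hx y _ hy
    have h1 := (e1pos x hx).ne'
    have h2 := (e1pos y hy).ne'
    rw [hτ, hτ]
    field_simp
    ring
  have hlim : ∀ I ∈ (L ++ A ++ R).toFinset.powersetCard (d + r),
      comb A.toFinset q (Q (A ++ [q]) (d + 1) κ₁ c₁ t₁) (Q (L ++ [q] ++ R) r κ₂ c₂ t₂) I =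
      (0 : ℝ) ^ ((d + 1 - (I ∩ A.toFinset).card).choose 2 +
        ((I ∩ A.toFinset).card - d).choose 2) * (K * G I 0) := by
    intro I hI
    have hG0 : G I 0 = (∏ z ∈ I ∩ A.toFinset, (g * c₁ z * (t₁ q - t₁ z) ^ d)) *
        (∏ z ∈ I ∩ L.toFinset, (c₂ z / (t₂ q - t₂ z) ^ d)) *
        (∏ z ∈ I ∩ R.toFinset, (c₂ z / (t₂ z - t₂ q) ^ d)) *
        (pp (fun x y => t₂ y - t₂ x) I L * pp (fun x y => t₂ y - t₂ x) I R *
          pp (fun x y => τ y - τ x) I A) *
        ((∏ x ∈ I ∩ L.toFinset, ∏ z ∈ I ∩ R.toFinset, (t₂ z - t₂ x)) *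
        (∏ x ∈ I ∩ L.toFinset, (t₂ q - t₂ x) ^ (I ∩ A.toFinset).card) *
        (∏ z ∈ I ∩ R.toFinset, (t₂ z - t₂ q) ^ (I ∩ A.toFinset).card)) := by
      rw [hG]
      congr 1
      congr 1
      · congr 1
        apply Finset.prod_congr rfl
        intro x _
        simp only [zero_mul, add_zero, Finset.prod_const]
      · rw [Finset.prod_comm]
        apply Finset.prod_congr rfl
        intro z _
        simp only [zero_mul, add_zero, Finset.prod_const]
    have hqJ : q ∉ I \ A.toFinset := fun h => hqI I hI (Finset.mem_sdiff.1 h).1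
    have hc := hcard I hI
    have hgd : g ^ d ≠ 0 := (pow_pos hgpos d).ne'
    have hc1q : c₁ q ≠ 0 := (hc₁ q).ne'
    unfold comb
    rw [if_neg (hqI I hI), hG0]
    rcases eq_or_ne (I ∩ A.toFinset).card (d + 1) with ha | ha
    · have z2 : Q (A ++ [q]) (d + 1) κ₁ c₁ t₁ (insert q (I ∩ A.toFinset)) = 0 := by
        by_contra h
        have h2 := (Q_mem h).2
        rw [Finset.card_insert_of_notMem (by simp [hqI I hI]), ha] at h2
        omega
      rw [z2, zero_mul, add_zero, valA1 I ha (hqI I hI),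
        Q_val2 L R q r κ₂ c₂ t₂ _ hnB (hsubJ I hI) hqJ (by omega), hJL, hJR, hpL, hpR, ha]
      have n0 : (d + 1 - (d + 1)).choose 2 + (d + 1 - d).choose 2 = 0 := by simp
      rw [n0, pow_zero, one_mul]
      have eL : (∏ z ∈ I ∩ L.toFinset, (c₂ z / (t₂ q - t₂ z) ^ d)) *
          ∏ x ∈ I ∩ L.toFinset, (t₂ q - t₂ x) ^ (d + 1) =
          (∏ z ∈ I ∩ L.toFinset, c₂ z) * ∏ z ∈ I ∩ L.toFinset, (t₂ q - t₂ z) := by
        rw [← Finset.prod_mul_distrib, ← Finset.prod_mul_distrib]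
        apply Finset.prod_congr rfl
        intro z hz
        have hp := (DL z (List.mem_toFinset.1 (Finset.mem_inter.1 hz).2)).ne'
        rw [pow_succ]
        field_simp
      have eR : (∏ z ∈ I ∩ R.toFinset, (c₂ z / (t₂ z - t₂ q) ^ d)) *
          ∏ x ∈ I ∩ R.toFinset, (t₂ x - t₂ q) ^ (d + 1) =
          (∏ z ∈ I ∩ R.toFinset, c₂ z) * ∏ z ∈ I ∩ R.toFinset, (t₂ z - t₂ q) := by
        rw [← Finset.prod_mul_distrib, ← Finset.prod_mul_distrib]
        apply Finset.prod_congr rfl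
        intro z hz
        have hp := (DR z (List.mem_toFinset.1 (Finset.mem_inter.1 hz).2)).ne'
        rw [pow_succ]
        field_simp
      have eA : ∏ z ∈ I ∩ A.toFinset, (g * c₁ z * (t₁ q - t₁ z) ^ d) =
          g ^ (d + 1) * (∏ z ∈ I ∩ A.toFinset, c₁ z) *
            ∏ z ∈ I ∩ A.toFinset, (t₁ q - t₁ z) ^ d := by
        rw [Finset.prod_mul_distrib, Finset.prod_mul_distrib, Finset.prod_const, ha]
      have em : pp (fun x y => t₁ y - t₁ x) I A = pp (fun x y => τ y - τ x) I A *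
          ∏ z ∈ I ∩ A.toFinset, (t₁ q - t₁ z) ^ d := by
        have h := hmoeb I
        rw [ha] at h
        have e : ∏ z ∈ I ∩ A.toFinset, (t₁ q - t₁ z) ^ (d + 1) =
            (∏ z ∈ I ∩ A.toFinset, (t₁ q - t₁ z) ^ d) *
              ∏ z ∈ I ∩ A.toFinset, (t₁ q - t₁ z) := by
          rw [← Finset.prod_mul_distrib]
          exact Finset.prod_congr rfl (fun z _ => pow_succ _ _)
        rw [e, ← mul_assoc] at h
        exact mul_right_cancel₀ (hpne I) h
      have eK : K * g ^ (d + 1) = κ₁ * κ₂ * c₂ q := by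
        rw [hK, pow_succ, ← mul_assoc, div_mul_cancel₀ _ hgd, hg]
        field_simp
      rw [eA, em]
      calc κ₁ * (∏ z ∈ I ∩ A.toFinset, c₁ z) * (pp (fun x y => τ y - τ x) I A *
            ∏ z ∈ I ∩ A.toFinset, (t₁ q - t₁ z) ^ d) *
            (κ₂ * (c₂ q * ((∏ z ∈ I ∩ L.toFinset, c₂ z) * ∏ z ∈ I ∩ R.toFinset, c₂ z)) *
            (pp (fun x y => t₂ y - t₂ x) I L * pp (fun x y => t₂ y - t₂ x) I R *
            (∏ x ∈ I ∩ L.toFinset, ∏ y ∈ I ∩ R.toFinset, (t₂ y - t₂ x)) *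
            ((∏ x ∈ I ∩ L.toFinset, (t₂ q - t₂ x)) * ∏ y ∈ I ∩ R.toFinset, (t₂ y - t₂ q))))
          = (κ₁ * κ₂ * c₂ q) * (∏ z ∈ I ∩ A.toFinset, c₁ z) * (pp (fun x y => τ y - τ x) I A *
            ∏ z ∈ I ∩ A.toFinset, (t₁ q - t₁ z) ^ d) *
            (pp (fun x y => t₂ y - t₂ x) I L * pp (fun x y => t₂ y - t₂ x) I R *
            (∏ x ∈ I ∩ L.toFinset, ∏ y ∈ I ∩ R.toFinset, (t₂ y - t₂ x))) *
            ((∏ z ∈ I ∩ L.toFinset, c₂ z) * ∏ z ∈ I ∩ L.toFinset, (t₂ q - t₂ z)) *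
            ((∏ z ∈ I ∩ R.toFinset, c₂ z) * ∏ z ∈ I ∩ R.toFinset, (t₂ z - t₂ q)) := by ring
        _ = _ := by
          rw [← eL, ← eR, ← eK]
          ring
    rcases eq_or_ne (I ∩ A.toFinset).card d with hb | hb
    · have z1 : Q (A ++ [q]) (d + 1) κ₁ c₁ t₁ (I ∩ A.toFinset) = 0 := by
        by_contra h
        exact ha (Q_mem h).2
      rw [z1, zero_mul, zero_add, valA2 I hb (hqI I hI),
        Q_val1 L R q r κ₂ c₂ t₂ _ hnB (hsubJ I hI) hqJ (by omega), hJL, hJR, hpL, hpR, hb]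
      have n0 : (d + 1 - d).choose 2 + (d - d).choose 2 = 0 := by simp
      rw [n0, pow_zero, one_mul]
      have eL : (∏ z ∈ I ∩ L.toFinset, (c₂ z / (t₂ q - t₂ z) ^ d)) *
          ∏ x ∈ I ∩ L.toFinset, (t₂ q - t₂ x) ^ d = ∏ z ∈ I ∩ L.toFinset, c₂ z := by
        rw [← Finset.prod_mul_distrib]
        apply Finset.prod_congr rfl
        intro z hz
        have hp := (DL z (List.mem_toFinset.1 (Finset.mem_inter.1 hz).2)).ne'
        field_simp
      have eR : (∏ z ∈ I ∩ R.toFinset, (c₂ z / (t₂ z - t₂ q) ^ d)) *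
          ∏ x ∈ I ∩ R.toFinset, (t₂ x - t₂ q) ^ d = ∏ z ∈ I ∩ R.toFinset, c₂ z := by
        rw [← Finset.prod_mul_distrib]
        apply Finset.prod_congr rfl
        intro z hz
        have hp := (DR z (List.mem_toFinset.1 (Finset.mem_inter.1 hz).2)).ne'
        field_simp
      have eA : ∏ z ∈ I ∩ A.toFinset, (g * c₁ z * (t₁ q - t₁ z) ^ d) =
          g ^ d * (∏ z ∈ I ∩ A.toFinset, c₁ z) *
            ∏ z ∈ I ∩ A.toFinset, (t₁ q - t₁ z) ^ d := by
        rw [Finset.prod_mul_distrib, Finset.prod_mul_distrib, Finset.prod_const, hb]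
      have em := hmoeb I
      rw [hb] at em
      have eK : K * g ^ d = κ₁ * κ₂ * c₁ q := by
        rw [hK, div_mul_cancel₀ _ hgd]
      rw [eA, em]
      calc κ₁ * (c₁ q * ∏ z ∈ I ∩ A.toFinset, c₁ z) * (pp (fun x y => τ y - τ x) I A *
            ∏ z ∈ I ∩ A.toFinset, (t₁ q - t₁ z) ^ d) *
            (κ₂ * ((∏ z ∈ I ∩ L.toFinset, c₂ z) * ∏ z ∈ I ∩ R.toFinset, c₂ z) *
            (pp (fun x y => t₂ y - t₂ x) I L * pp (fun x y => t₂ y - t₂ x) I R *
            (∏ x ∈ I ∩ L.toFinset, ∏ y ∈ I ∩ R.toFinset, (t₂ y - t₂ x))))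
          = (κ₁ * κ₂ * c₁ q) * (∏ z ∈ I ∩ A.toFinset, c₁ z) * (pp (fun x y => τ y - τ x) I A *
            ∏ z ∈ I ∩ A.toFinset, (t₁ q - t₁ z) ^ d) *
            (pp (fun x y => t₂ y - t₂ x) I L * pp (fun x y => t₂ y - t₂ x) I R *
            (∏ x ∈ I ∩ L.toFinset, ∏ y ∈ I ∩ R.toFinset, (t₂ y - t₂ x))) *
            (∏ z ∈ I ∩ L.toFinset, c₂ z) * (∏ z ∈ I ∩ R.toFinset, c₂ z) := by ring
        _ = _ := by
          rw [← eL, ← eR, ← eK]
          ring
    · have z1 : Q (A ++ [q]) (d + 1) κ₁ c₁ t₁ (I ∩ A.toFinset) = 0 := by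
        by_contra h
        exact ha (Q_mem h).2
      have z2 : Q (A ++ [q]) (d + 1) κ₁ c₁ t₁ (insert q (I ∩ A.toFinset)) = 0 := by
        by_contra h
        have h2 := (Q_mem h).2
        rw [Finset.card_insert_of_notMem (by simp [hqI I hI])] at h2
        exact hb (by omega)
      rw [z1, z2, zero_mul, zero_mul, add_zero, zero_pow (expo_zero hb ha), zero_mul]
  refine mem_closure_of_tendsto (f := fun s : ℝ =>
    (Q (L ++ A ++ R) (d + r) (K * s ^ ((d + 1).choose 2)) (C s) (T s) : Finset ℕ → ℝ))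
    (b := 𝓝[>] (0 : ℝ)) ?_ ?_
  · rw [tendsto_pi_nhds]
    intro I
    by_cases hI : I ∈ (L ++ A ++ R).toFinset.powersetCard (d + r)
    · rw [hlim I hI]
      have he : (fun s : ℝ => Q (L ++ A ++ R) (d + r) (K * s ^ ((d + 1).choose 2)) (C s) (T s) I)
          =ᶠ[𝓝[>] 0] fun s => s ^ ((d + 1 - (I ∩ A.toFinset).card).choose 2 +
            ((I ∩ A.toFinset).card - d).choose 2) * (K * G I s) := by
        filter_upwards [self_mem_nhdsWithin] with s hs
        exact val I hI s hs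
      refine (tendsto_congr' he).2 ?_
      have hGc : Continuous (G I) := by
        rw [show G I = _ from funext (hG I)]
        fun_prop
      have hcont : Continuous fun s : ℝ => s ^ ((d + 1 - (I ∩ A.toFinset).card).choose 2 +
            ((I ∩ A.toFinset).card - d).choose 2) * (K * G I s) := by fun_prop
      exact tendsto_nhdsWithin_of_tendsto_nhds hcont.continuousAt
    · have h0 : ∀ s : ℝ, Q (L ++ A ++ R) (d + r) (K * s ^ ((d + 1).choose 2)) (C s) (T s) I = 0 :=
        fun s => by rw [Q_eq _ hn, if_neg hI]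
      have h1 : comb A.toFinset q (Q (A ++ [q]) (d + 1) κ₁ c₁ t₁)
          (Q (L ++ [q] ++ R) r κ₂ c₂ t₂) I = 0 := by
        unfold comb
        by_cases hqI' : q ∈ I
        · rw [if_pos hqI']
        rw [if_neg hqI']
        by_contra hne
        apply hI
        rw [Finset.mem_powersetCard]
        have hqIA : q ∉ I ∩ A.toFinset := by simp [hqI']
        have hqJ : q ∉ I \ A.toFinset := by simp [hqI']
        have hcc := Finset.card_inter_add_card_sdiff I A.toFinset
        have hsub : I \ A.toFinset ⊆ L.toFinset ∪ R.toFinset →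
            I ⊆ (L ++ A ++ R).toFinset := by
          intro h z hz
          by_cases hzA : z ∈ A.toFinset
          · simp only [List.toFinset_append, Finset.mem_union]
            tauto
          · have := h (Finset.mem_sdiff.2 ⟨hz, hzA⟩)
            simp only [List.toFinset_append, Finset.mem_union] at this ⊢
            tauto
        have hsub' : ∀ J : Finset ℕ, q ∉ J → J ⊆ (L ++ [q] ++ R).toFinset →
            J ⊆ L.toFinset ∪ R.toFinset := by
          intro J hqJ' h z hz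
          have := h hz
          simp only [List.toFinset_append, Finset.mem_union, List.mem_toFinset,
            List.mem_singleton] at this ⊢
          rcases this with (h3 | h3) | h3
          · exact Or.inl h3
          · exact absurd (h3 ▸ hz) hqJ'
          · exact Or.inr h3
        rcases ne_or_eq (Q (A ++ [q]) (d + 1) κ₁ c₁ t₁ (I ∩ A.toFinset) *
          Q (L ++ [q] ++ R) r κ₂ c₂ t₂ (insert q (I \ A.toFinset))) 0 with h | h
        · have ha := Q_mem (left_ne_zero_of_mul h)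
          have hb := Q_mem (right_ne_zero_of_mul h)
          rw [Finset.card_insert_of_notMem hqJ] at hb
          refine ⟨hsub (hsub' _ hqJ ((Finset.subset_insert _ _).trans hb.1)), by omega⟩
        · rw [h, zero_add] at hne
          have ha := Q_mem (left_ne_zero_of_mul hne)
          have hb := Q_mem (right_ne_zero_of_mul hne)
          rw [Finset.card_insert_of_notMem hqIA] at ha
          refine ⟨hsub (hsub' _ hqJ hb.1), by omega⟩
      simp only [h0, h1]
      exact tendsto_const_nhds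
  · have hev : ∀ᶠ s : ℝ in 𝓝[>] 0, ∀ a ∈ A.toFinset, ∀ z ∈ R.toFinset,
        t₂ q + s * τ a < t₂ z := by
      rw [Filter.eventually_all_finset]
      intro a _
      rw [Filter.eventually_all_finset]
      intro z hz
      have hcont : Continuous fun s : ℝ => t₂ q + s * τ a := by fun_prop
      have h0 : t₂ q + 0 * τ a < t₂ z := by
        have := DR z (List.mem_toFinset.1 hz)
        linarith
      exact (tendsto_nhdsWithin_of_tendsto_nhds hcont.continuousAt).eventually_lt_const h0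
    filter_upwards [self_mem_nhdsWithin, hev] with s hs hs2
    have hs' : 0 < s := hs
    refine ⟨_, C s, T s, mul_pos hKpos (pow_pos hs' _), ?_, ?_, rfl⟩
    · intro z
      rw [hC]
      split_ifs with h1 h2 h3
      · exact div_pos (mul_pos (mul_pos hgpos (hc₁ z)) (pow_pos (e1pos z h1) _)) (pow_pos hs' _)
      · exact div_pos (hc₂ z) (pow_pos (DL z h2) _)
      · exact div_pos (hc₂ z) (pow_pos (DR z h3) _)
      · exact one_pos
    · rw [List.pairwise_append, List.pairwise_append]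
      refine ⟨⟨?_, ?_, ?_⟩, ?_, ?_⟩
      · refine (List.Pairwise.and_mem.1 ht₂L).imp ?_
        rintro a b ⟨ha, hb, hab⟩
        rw [TL s a ha, TL s b hb]
        exact hab
      · refine (List.Pairwise.and_mem.1 ht₁A).imp ?_
        rintro a b ⟨ha, hb, hab⟩
        rw [TA s a ha, TA s b hb, hτ, hτ]
        have h1 := e1pos a ha
        have h2 := e1pos b hb
        have h3 : (t₁ q - t₁ a)⁻¹ < (t₁ q - t₁ b)⁻¹ := by
          rw [inv_lt_inv₀ h1 h2]
          linarith
        have := mul_lt_mul_of_pos_left h3 hs'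
        linarith
      · intro a ha b hb
        rw [TL s a ha, TA s b hb]
        have h1 := DL a ha
        have h2 := mul_pos hs' (τpos b hb)
        linarith
      · refine (List.Pairwise.and_mem.1 ht₂R).imp ?_
        rintro a b ⟨ha, hb, hab⟩
        rw [TR s a ha, TR s b hb]
        exact hab
      · intro a ha b hb
        rw [TR s b hb]
        rcases List.mem_append.1 ha with h | h
        · rw [TL s a h]
          exact ht₂LR a (List.mem_append_left _ h) b hb
        · rw [TA s a h]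
          exact hs2 a (List.mem_toFinset.2 h) b (List.mem_toFinset.2 hb)

theorem smooth : SmoothStmt := by
  intro L A R r d q hn hq _ _ _ y hy x hx
  have hcont : Continuous (Function.uncurry (comb A.toFinset q :
      (Finset ℕ → ℝ) → (Finset ℕ → ℝ) → Finset ℕ → ℝ)) := by
    apply continuous_pi
    rintro I
    unfold Function.uncurry comb
    by_cases h : q ∈ I
    · simp only [h, if_true]
      exact continuous_const
    · simp only [h, if_false]
      fun_prop
  have := map_mem_closure₂ hcont hy hx (fun a ha b hb => smooth_mem L A R r d q hn hq a b ha hb)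
  rwa [closure_closure] at this

end ABCT.H53
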