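import Pool.Agent.Helper93_ABCT.StmtK
import Pool.Agent.Helper32_ABCT.Api2

/-!
# UTWI: the variety of a twist (MP_a17fcb_ag)
-/

open MvPolynomial

namespace ABCT.H53

open ABCT PosGeom

/-- the coordinate as a complex polynomial -/
noncomputable def polC (S : FlatCell) (I : Finset ℕ) : MvPolynomial S.V ℂ :=
  MvPolynomial.map (Nat.castRingHom ℂ) (S.pol I)

theorem P_polC (S : FlatCell) (I : Finset ℕ) :
    S.P I = algebraMap (MvPolynomial S.V ℂ) S.F (polC S I) := by
  have : (algebraMap (MvPolynomial S.V ℂ) S.F).comp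
      (MvPolynomial.map (Nat.castRingHom ℂ) : MvPolynomial S.V ℕ →+* MvPolynomial S.V ℂ) =
      eval₂Hom (Nat.castRingHom S.F) S.x := by
    apply MvPolynomial.ringHom_ext
    · intro n
      simp
    · intro v
      simp [FlatCell.x]
  exact (DFunLike.congr_fun this (S.pol I)).symm

theorem polC_eq (S : FlatCell) (I : Finset ℕ) : polC S I =
    (∏ i ∈ I, X (Sum.inl i)) * rename Sum.inr (MvPolynomial.map (Int.castRingHom ℂ)
      (MvPolynomial.map (Nat.castRingHom ℤ) (S.Δ I))) := by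
  unfold polC FlatCell.pol
  rw [map_mul, map_prod, MvPolynomial.map_map]
  congr 1
  · exact Finset.prod_congr rfl fun i _ => by simp
  · rw [MvPolynomial.map_rename]
    congr 2

/-- the substitution of the gaps by linear forms -/
noncomputable def sub {G G' : Type} (L : G' → MvPolynomial G ℤ) :
    MvPolynomial (ℕ ⊕ G') ℂ →ₐ[ℂ] MvPolynomial (ℕ ⊕ G) ℂ :=
  aeval (Sum.elim (fun i => X (Sum.inl i)) fun k =>
    rename Sum.inr (MvPolynomial.map (Int.castRingHom ℂ) (L k)))

theorem sub_inr {G G' : Type} (L : G' → MvPolynomial G ℤ) (P : MvPolynomial G' ℤ) :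
    sub L (rename Sum.inr (MvPolynomial.map (Int.castRingHom ℂ) P)) =
      rename Sum.inr (MvPolynomial.map (Int.castRingHom ℂ) (aeval L P)) := by
  have : ((sub L : MvPolynomial (ℕ ⊕ G') ℂ →ₐ[ℂ] MvPolynomial (ℕ ⊕ G) ℂ) :
      MvPolynomial (ℕ ⊕ G') ℂ →+* MvPolynomial (ℕ ⊕ G) ℂ).comp
      (((rename Sum.inr : MvPolynomial G' ℂ →ₐ[ℂ] MvPolynomial (ℕ ⊕ G') ℂ) :
        MvPolynomial G' ℂ →+* MvPolynomial (ℕ ⊕ G') ℂ).comp
        (MvPolynomial.map (Int.castRingHom ℂ))) =
      (((rename Sum.inr : MvPolynomial G ℂ →ₐ[ℂ] MvPolynomial (ℕ ⊕ G) ℂ) :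
        MvPolynomial G ℂ →+* MvPolynomial (ℕ ⊕ G) ℂ).comp
        (MvPolynomial.map (Int.castRingHom ℂ))).comp
        ((aeval L : MvPolynomial G' ℤ →ₐ[ℤ] MvPolynomial G ℤ) :
          MvPolynomial G' ℤ →+* MvPolynomial G ℤ) := by
    apply MvPolynomial.ringHom_ext
    · intro n
      simp
    · intro v
      simp [sub]
  exact DFunLike.congr_fun this P

theorem sub_inl {G G' : Type} (L : G' → MvPolynomial G ℤ) (i : ℕ) :
    sub L (X (Sum.inl i)) = X (Sum.inl i) := by simp [sub]

theorem sub_inj {G G' : Type} (L : G' → MvPolynomial G ℤ) (L' : G → MvPolynomial G' ℤ)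
    (h : ∀ k, aeval L' (L k) = X k) : Function.Injective (sub L) := by
  apply Function.LeftInverse.injective (g := sub L')
  intro P
  have : (sub L').comp (sub L) = AlgHom.id ℂ _ := by
    apply MvPolynomial.algHom_ext
    rintro (i | k)
    · rw [AlgHom.comp_apply, sub_inl, sub_inl]
      rfl
    · rw [AlgHom.comp_apply, show sub L (X (Sum.inr k)) =
        rename Sum.inr (MvPolynomial.map (Int.castRingHom ℂ) (L k)) by simp [sub], sub_inr, h]
      simp
  exact DFunLike.congr_fun this P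

theorem sub_polC {S T : FlatCell} (τ : Twist S T) (hτ : τ.Ok) (I : Finset ℕ) :
    sub τ.L (polC T I) = C ((τ.ε I : ℤ) : ℂ) * polC S I := by
  rw [polC_eq, polC_eq, map_mul, map_prod, sub_inr, hτ.eq, map_mul, map_mul]
  have h1 : ∀ i ∈ I, sub τ.L (X (Sum.inl i)) = X (Sum.inl i) := fun i _ => sub_inl _ i
  rw [Finset.prod_congr rfl h1, map_C, rename_C]
  simp only [eq_intCast]
  ring

theorem utwi (hK : KgenStmt) : UtwiStmt := by
  intro ι _ emb S T hS hT τ hτ d dT N NT b bT a aT hN hNT F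
  rw [← (hK ι emb T hT dT NT bT aT hNT).1 F, ← (hK ι emb S hS d N b a hN).1 _]
  have hinj : ∀ (S : FlatCell), Function.Injective (algebraMap (MvPolynomial S.V ℂ) S.F) :=
    fun S => IsFractionRing.injective _ _
  -- both sides as polynomials
  have e1 : aeval (fun i => T.P (emb i)) F =
      algebraMap (MvPolynomial T.V ℂ) T.F (aeval (fun i => polC T (emb i)) F) := by
    rw [show (fun i => T.P (emb i)) = fun i => algebraMap (MvPolynomial T.V ℂ) T.F
      (polC T (emb i)) from funext fun i => P_polC T (emb i)]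
    exact (MvPolynomial.aeval_algebraMap_apply _ _ _)
  have e2 : aeval (fun i => S.P (emb i))
      (aeval (fun i => C ((τ.ε (emb i) : ℤ) : ℂ) * X i) F) =
      algebraMap (MvPolynomial S.V ℂ) S.F (sub τ.L (aeval (fun i => polC T (emb i)) F)) := by
    rw [← AlgHom.comp_apply, ← AlgHom.comp_apply, comp_aeval, comp_aeval]
    have : (algebraMap (MvPolynomial S.V ℂ) S.F) (aeval (fun i => sub τ.L (polC T (emb i))) F) =
        aeval (fun i => algebraMap (MvPolynomial S.V ℂ) S.F (sub τ.L (polC T (emb i)))) F :=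
      (MvPolynomial.aeval_algebraMap_apply _ _ _).symm
    rw [this]
    congr 2
    funext i
    rw [sub_polC τ hτ, map_mul, map_mul, aeval_C, aeval_X, P_polC]
    congr 1
  rw [e1, e2, map_eq_zero_iff _ (hinj T), map_eq_zero_iff _ (hinj S),
    map_eq_zero_iff _ (sub_inj τ.L τ.L' hτ.inv')]

end ABCT.H53
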