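import Pool.Agent.Helper32_ABCT.Stmts2
import Pool.Agent.Helper53_ABCT.Pairs

/-!
# VLC: adding loops and coloops (MP_a17fcb_ag)
-/

open MvPolynomial Filter Topology

namespace ABCT.H53

open ABCT

/-- a value of `t` at a new label in the middle of an increasing list -/
theorem exists_insert (L T : List ℕ) (i : ℕ) (t : ℕ → ℝ) (hn : (L ++ i :: T).Nodup)
    (h : (L ++ T).Pairwise fun a b => t a < t b) :
    ∃ t' : ℕ → ℝ, (∀ x ∈ L ++ T, t' x = t x) ∧
      (L ++ i :: T).Pairwise fun a b => t' a < t' b := by
  rw [List.pairwise_append] at h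
  obtain ⟨m, hm1, hm2⟩ := Order.exists_between_finsets (L.toFinset.image t) (T.toFinset.image t)
    (by
      intro x hx y hy
      rw [Finset.mem_image] at hx hy
      obtain ⟨a, ha, rfl⟩ := hx
      obtain ⟨b, hb, rfl⟩ := hy
      exact h.2.2 a (List.mem_toFinset.1 ha) b (List.mem_toFinset.1 hb))
  have hiL : i ∉ L := fun hi => (List.nodup_append'.1 hn).2.2 hi List.mem_cons_self
  have hiT : i ∉ T := (List.nodup_cons.1 (List.nodup_append'.1 hn).2.1).1
  refine ⟨Function.update t i m, ?_, ?_⟩
  · intro x hx
    rw [Function.update_of_ne]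
    rintro rfl
    rcases List.mem_append.1 hx with h1 | h1
    · exact hiL h1
    · exact hiT h1
  · have hL : ∀ x ∈ L, Function.update t i m x = t x := fun x hx =>
      Function.update_of_ne (fun e : x = i => hiL (e ▸ hx)) _ _
    have hT : ∀ x ∈ T, Function.update t i m x = t x := fun x hx =>
      Function.update_of_ne (fun e : x = i => hiT (e ▸ hx)) _ _
    rw [List.pairwise_append, List.pairwise_cons]
    refine ⟨?_, ⟨?_, ?_⟩, ?_⟩
    · refine (List.Pairwise.and_mem.1 h.1).imp ?_
      rintro a b ⟨ha, hb, hab⟩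
      rw [hL a ha, hL b hb]
      exact hab
    · intro b hb
      rw [hT b hb, Function.update_self]
      exact hm2 _ (Finset.mem_image_of_mem _ (List.mem_toFinset.2 hb))
    · refine (List.Pairwise.and_mem.1 h.2.1).imp ?_
      rintro a b ⟨ha, hb, hab⟩
      rw [hT a ha, hT b hb]
      exact hab
    · intro a ha b hb
      rw [hL a ha]
      rcases List.mem_cons.1 hb with rfl | hb
      · rw [Function.update_self]
        exact hm1 _ (Finset.mem_image_of_mem _ (List.mem_toFinset.2 ha))
      · rw [hT b hb]
        exact h.2.2 a ha b hb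

theorem pp_congr_t {R : Type*} [CommRing R] (t t' : ℕ → R) (I : Finset ℕ) (l : List ℕ)
    (h : ∀ x ∈ l, t x = t' x) : pp (fun x y => t y - t x) I l = pp (fun x y => t' y - t' x) I l :=
  pp_congr _ _ _ _ (fun x _ hx y _ hy => by rw [h x hx, h y hy])

theorem nodup_drop {L T : List ℕ} {i : ℕ} (h : (L ++ i :: T).Nodup) : (L ++ T).Nodup := by
  rw [List.nodup_append'] at h ⊢
  exact ⟨h.1, (List.nodup_cons.1 h.2.1).2, fun x hx hx' => h.2.2 hx (List.mem_cons_of_mem _ hx')⟩

theorem mem_pc {L T : List ℕ} {i r : ℕ} {I : Finset ℕ} (hi : i ∉ I) :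
    I ∈ (L ++ i :: T).toFinset.powersetCard r ↔ I ∈ (L ++ T).toFinset.powersetCard r := by
  rw [Finset.mem_powersetCard, Finset.mem_powersetCard]
  have : I ⊆ (L ++ i :: T).toFinset ↔ I ⊆ (L ++ T).toFinset := by
    constructor
    · intro h x hx
      have := h hx
      simp only [List.toFinset_append, List.toFinset_cons, Finset.mem_union, Finset.mem_insert] at this ⊢
      rcases this with h1 | h1 | h1
      · exact Or.inl h1
      · exact absurd (h1 ▸ hx) hi
      · exact Or.inr h1
    · intro h x hx
      have := h hx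
      simp only [List.toFinset_append, List.toFinset_cons, Finset.mem_union, Finset.mem_insert] at this ⊢
      tauto
  rw [this]

/-- loops: the limit `c_i → 0` -/
theorem loop_mem (L T : List ℕ) (i r : ℕ) (hn : (L ++ i :: T).Nodup) :
    ∀ z ∈ ZV (L ++ T) r, z ∈ closure (ZV (L ++ i :: T) r) := by
  rintro z ⟨κ, c, t, hκ, hc, ht, rfl⟩
  obtain ⟨t', ht', hp⟩ := exists_insert L T i t hn ht
  have hi : i ∉ L ++ T := fun h => by
    rcases List.mem_append.1 h with h1 | h1
    · exact (List.nodup_append'.1 hn).2.2 h1 List.mem_cons_self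
    · exact (List.nodup_cons.1 (List.nodup_append'.1 hn).2.1).1 h1
  have key : ∀ I : Finset ℕ, ∀ s : ℝ, Q (L ++ i :: T) r κ (Function.update c i s) t' I =
      (if i ∈ I then s else 1) * Q (L ++ i :: T) r κ (Function.update c i 1) t' I := by
    intro I s
    rw [Q_eq _ hn, Q_eq _ hn]
    split_ifs with h1 h2 h2
    · rw [Finset.prod_update_of_mem h2, Finset.prod_update_of_mem h2]
      ring
    · rw [Finset.prod_update_of_notMem h2, Finset.prod_update_of_notMem h2]
      ring
    · simp
    · simp
  refine mem_closure_of_tendsto (f := fun s : ℝ =>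
    (Q (L ++ i :: T) r κ (Function.update c i s) t' : Finset ℕ → ℝ)) (b := 𝓝[>] (0 : ℝ)) ?_ ?_
  · rw [tendsto_pi_nhds]
    intro I
    rw [show (fun s : ℝ => Q (L ++ i :: T) r κ (Function.update c i s) t' I) = fun s : ℝ =>
      (if i ∈ I then s else 1) * Q (L ++ i :: T) r κ (Function.update c i 1) t' I from
      funext (key I)]
    have h0 : Tendsto (fun s : ℝ => (if i ∈ I then s else 1) *
        Q (L ++ i :: T) r κ (Function.update c i 1) t' I) (𝓝[>] (0 : ℝ))
        (𝓝 ((if i ∈ I then 0 else 1) * Q (L ++ i :: T) r κ (Function.update c i 1) t' I)) := by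
      apply Tendsto.mul_const
      by_cases h : i ∈ I
      · simp only [h, if_true]
        exact tendsto_nhdsWithin_of_tendsto_nhds tendsto_id
      · simp only [h, if_false]
        exact tendsto_const_nhds
    convert h0 using 2
    rw [Q_eq _ (nodup_drop hn)]
    by_cases h : i ∈ I
    · rw [if_pos h, zero_mul, if_neg]
      intro h'
      exact hi (List.mem_toFinset.1 ((Finset.mem_powersetCard.1 h').1 h))
    · rw [if_neg h, one_mul, Q_eq _ hn]
      by_cases h' : I ∈ (L ++ T).toFinset.powersetCard r
      · rw [if_pos h', if_pos ((mem_pc h).2 h'), pp_drop _ _ _ _ _ h hn,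
          Finset.prod_update_of_notMem h, pp_congr_t t t' I _ (fun x hx => (ht' x hx).symm)]
      · rw [if_neg h', if_neg (fun h'' => h' ((mem_pc h).1 h''))]
  · filter_upwards [self_mem_nhdsWithin] with s hs
    refine ⟨κ, Function.update c i s, t', hκ, ?_, hp, rfl⟩
    intro j
    by_cases hj : j = i
    · subst hj
      rw [Function.update_self]
      exact hs
    · rw [Function.update_of_ne hj]
      exact hc j

/-- coloops: the limit `c_i → ∞`, `κ → 0` -/
theorem coloop_mem (L T : List ℕ) (i r : ℕ) (hn : (L ++ i :: T).Nodup) :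
    ∀ z ∈ ZV (L ++ T) r, addco i z ∈ closure (ZV (L ++ i :: T) (r + 1)) := by
  rintro z ⟨κ, c, t, hκ, hc, ht, rfl⟩
  obtain ⟨t', ht', hp⟩ := exists_insert L T i t hn ht
  have hiL : i ∉ L := fun h1 => (List.nodup_append'.1 hn).2.2 h1 List.mem_cons_self
  have hiT : i ∉ T := (List.nodup_cons.1 (List.nodup_append'.1 hn).2.1).1
  have hi : i ∉ L ++ T := fun h => by
    rcases List.mem_append.1 h with h1 | h1
    · exact hiL h1
    · exact hiT h1
  have hp' := hp
  rw [List.pairwise_append, List.pairwise_cons] at hp'
  obtain ⟨-, ⟨hpT, -⟩, hpL⟩ := hp'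
  have hnL : ∀ x ∈ L, 0 < t' i - t' x := fun x hx => sub_pos.2 (hpL x hx i List.mem_cons_self)
  have hnT : ∀ x ∈ T, 0 < t' x - t' i := fun x hx => sub_pos.2 (hpT x hx)
  -- the new coefficients
  set b : ℕ → ℝ := fun x => if x ∈ L then c x / (t' i - t' x) else
    if x ∈ T then c x / (t' x - t' i) else c x with hb
  have hbpos : ∀ x, 0 < b x := by
    intro x
    rw [hb]
    dsimp only
    split_ifs with h1 h2
    · exact div_pos (hc x) (hnL x h1)
    · exact div_pos (hc x) (hnT x h2)
    · exact hc x
  -- the value at sets containing `i`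
  have val : ∀ (s : ℝ), 0 < s → ∀ I : Finset ℕ, i ∈ I →
      Q (L ++ i :: T) (r + 1) (s * κ) (Function.update b i s⁻¹) t' I =
        Q (L ++ T) r κ c t (I.erase i) := by
    intro s hs I hI
    rw [Q_eq _ hn, Q_eq _ (nodup_drop hn)]
    have hII : I.erase i ∩ T.toFinset = I ∩ T.toFinset := by
      ext x
      simp only [Finset.mem_inter, Finset.mem_erase, List.mem_toFinset]
      constructor
      · rintro ⟨⟨_, h1⟩, h2⟩
        exact ⟨h1, h2⟩
      · rintro ⟨h1, h2⟩
        exact ⟨⟨fun e => hiT (e ▸ h2), h1⟩, h2⟩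
    have hIL : I.erase i ∩ L.toFinset = I ∩ L.toFinset := by
      ext x
      simp only [Finset.mem_inter, Finset.mem_erase, List.mem_toFinset]
      constructor
      · rintro ⟨⟨_, h1⟩, h2⟩
        exact ⟨h1, h2⟩
      · rintro ⟨h1, h2⟩
        exact ⟨⟨fun e => hiL (e ▸ h2), h1⟩, h2⟩
    have hmem : I ∈ (L ++ i :: T).toFinset.powersetCard (r + 1) ↔
        I.erase i ∈ (L ++ T).toFinset.powersetCard r := by
      rw [Finset.mem_powersetCard, Finset.mem_powersetCard, Finset.card_erase_of_mem hI]
      have hpos : 0 < I.card := Finset.card_pos.2 ⟨i, hI⟩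
      constructor
      · rintro ⟨h1, h2⟩
        refine ⟨?_, by omega⟩
        intro x hx
        rw [Finset.mem_erase] at hx
        have := h1 hx.2
        simp only [List.toFinset_append, List.toFinset_cons, Finset.mem_union,
          Finset.mem_insert] at this ⊢
        rcases this with h3 | h3 | h3
        · exact Or.inl h3
        · exact absurd h3 hx.1
        · exact Or.inr h3
      · rintro ⟨h1, h2⟩
        refine ⟨?_, by omega⟩
        intro x hx
        by_cases hxi : x = i
        · subst hxi
          simp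
        · have := h1 (Finset.mem_erase.2 ⟨hxi, hx⟩)
          simp only [List.toFinset_append, List.toFinset_cons, Finset.mem_union,
            Finset.mem_insert] at this ⊢
          tauto
    by_cases hm : I ∈ (L ++ i :: T).toFinset.powersetCard (r + 1)
    · rw [if_pos hm, if_pos (hmem.1 hm)]
      have hsub : I.erase i ⊆ L.toFinset ∪ T.toFinset := by
        have := (Finset.mem_powersetCard.1 (hmem.1 hm)).1
        rwa [List.toFinset_append] at this
      have hdisj : Disjoint L.toFinset T.toFinset := by
        rw [Finset.disjoint_left]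
        intro x hx hx'
        exact (List.nodup_append'.1 (nodup_drop hn)).2.2 (List.mem_toFinset.1 hx)
          (List.mem_toFinset.1 hx')
      have hdec : I.erase i = (I ∩ L.toFinset) ∪ (I ∩ T.toFinset) := by
        rw [← hIL, ← hII, ← Finset.inter_union_distrib_left, Finset.inter_eq_left.2 hsub]
      have hdd : Disjoint (I ∩ L.toFinset) (I ∩ T.toFinset) :=
        hdisj.mono Finset.inter_subset_right Finset.inter_subset_right
      -- products
      have e1 : ∏ x ∈ I, Function.update b i s⁻¹ x = s⁻¹ *
          ((∏ x ∈ I ∩ L.toFinset, b x) * ∏ x ∈ I ∩ T.toFinset, b x) := by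
        rw [← Finset.mul_prod_erase I _ hI, Function.update_self, ← Finset.prod_union hdd, ← hdec]
        congr 1
        apply Finset.prod_congr rfl
        intro x hx
        rw [Function.update_of_ne (Finset.ne_of_mem_erase hx)]
      have e2 : (∏ x ∈ I ∩ L.toFinset, b x) * ∏ x ∈ I ∩ L.toFinset, (t' i - t' x) =
          ∏ x ∈ I ∩ L.toFinset, c x := by
        rw [← Finset.prod_mul_distrib]
        apply Finset.prod_congr rfl
        intro x hx
        have hxL : x ∈ L := List.mem_toFinset.1 (Finset.mem_inter.1 hx).2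
        have : b x = c x / (t' i - t' x) := by simp [hb, hxL]
        rw [this, div_mul_cancel₀ _ (hnL x hxL).ne']
      have e3 : (∏ x ∈ I ∩ T.toFinset, b x) * ∏ x ∈ I ∩ T.toFinset, (t' x - t' i) =
          ∏ x ∈ I ∩ T.toFinset, c x := by
        rw [← Finset.prod_mul_distrib]
        apply Finset.prod_congr rfl
        intro x hx
        have hxT : x ∈ T := List.mem_toFinset.1 (Finset.mem_inter.1 hx).2
        have hxL : x ∉ L := fun h => Finset.disjoint_left.1 hdisj (List.mem_toFinset.2 h)
          (List.mem_toFinset.2 hxT)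
        have : b x = c x / (t' x - t' i) := by simp [hb, hxL, hxT]
        rw [this, div_mul_cancel₀ _ (hnT x hxT).ne']
      have e4 : ∏ x ∈ I.erase i, c x = (∏ x ∈ I ∩ L.toFinset, c x) * ∏ x ∈ I ∩ T.toFinset, c x := by
        rw [hdec, Finset.prod_union hdd]
      -- pair products
      have e5 : pp (fun x y => t y - t x) (I.erase i) (L ++ T) =
          pp (fun x y => t' y - t' x) I L * pp (fun x y => t' y - t' x) I T *
            ∏ x ∈ I ∩ L.toFinset, ∏ y ∈ I ∩ T.toFinset, (t' y - t' x) := by
        rw [pp_congr_t t t' _ _ (fun x hx => (ht' x hx).symm), pp_append _ _ _ _ (nodup_drop hn),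
          hIL, hII]
        congr 2
        · apply pp_congr_I
          intro x hx
          rw [Finset.mem_erase]
          exact ⟨fun h => h.2, fun h => ⟨fun e => hiL (e ▸ hx), h⟩⟩
        · apply pp_congr_I
          intro x hx
          rw [Finset.mem_erase]
          exact ⟨fun h => h.2, fun h => ⟨fun e => hiT (e ▸ hx), h⟩⟩
      have e6 : pp (fun x y => t' y - t' x) I (L ++ i :: T) =
          pp (fun x y => t' y - t' x) I L * ((∏ y ∈ I ∩ T.toFinset, (t' y - t' i)) *
            pp (fun x y => t' y - t' x) I T) *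
            ((∏ x ∈ I ∩ L.toFinset, (t' i - t' x)) *
              ∏ x ∈ I ∩ L.toFinset, ∏ y ∈ I ∩ T.toFinset, (t' y - t' x)) := by
        rw [pp_append _ _ _ _ hn, pp_cons, if_pos hI]
        congr 1
        rw [← Finset.prod_mul_distrib]
        apply Finset.prod_congr rfl
        intro x _
        have : I ∩ (i :: T).toFinset = insert i (I ∩ T.toFinset) := by
          ext y
          simp only [List.toFinset_cons, Finset.mem_inter, Finset.mem_insert, List.mem_toFinset]
          constructor
          · rintro ⟨h1, h2 | h2⟩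
            · exact Or.inl h2
            · exact Or.inr ⟨h1, h2⟩
          · rintro (h1 | ⟨h1, h2⟩)
            · exact ⟨h1 ▸ hI, Or.inl h1⟩
            · exact ⟨h1, Or.inr h2⟩
        rw [this, Finset.prod_insert (by simp [hiT])]
      rw [e1, e4, e5, e6, ← e2, ← e3]
      field_simp
    · rw [if_neg hm, if_neg (fun h => hm (hmem.2 h))]
  refine mem_closure_of_tendsto (f := fun s : ℝ =>
    (Q (L ++ i :: T) (r + 1) (s * κ) (Function.update b i s⁻¹) t' : Finset ℕ → ℝ))
    (b := 𝓝[>] (0 : ℝ)) ?_ ?_
  · rw [tendsto_pi_nhds]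
    intro I
    by_cases h : i ∈ I
    · have : (fun s : ℝ => Q (L ++ i :: T) (r + 1) (s * κ) (Function.update b i s⁻¹) t' I)
          =ᶠ[𝓝[>] 0] fun _ => addco i (Q (L ++ T) r κ c t) I := by
        filter_upwards [self_mem_nhdsWithin] with s hs
        rw [val s hs I h, addco, if_pos h]
      exact (tendsto_congr' this).2 tendsto_const_nhds
    · have : (fun s : ℝ => Q (L ++ i :: T) (r + 1) (s * κ) (Function.update b i s⁻¹) t' I) =
          fun s => s * Q (L ++ i :: T) (r + 1) κ b t' I := by
        funext s
        rw [Q_eq _ hn, Q_eq _ hn]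
        split_ifs with h1
        · rw [Finset.prod_update_of_notMem h]
          ring
        · simp
      rw [this, addco, if_neg h]
      have h0 : Tendsto (fun s : ℝ => s * Q (L ++ i :: T) (r + 1) κ b t' I) (𝓝[>] (0 : ℝ))
          (𝓝 (0 * Q (L ++ i :: T) (r + 1) κ b t' I)) :=
        (tendsto_nhdsWithin_of_tendsto_nhds tendsto_id).mul_const _
      rwa [zero_mul] at h0
  · filter_upwards [self_mem_nhdsWithin] with s hs
    have hs' : 0 < s := hs
    refine ⟨s * κ, Function.update b i s⁻¹, t', mul_pos hs' hκ, ?_, hp, rfl⟩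
    intro j
    by_cases hj : j = i
    · subst hj
      rw [Function.update_self]
      exact inv_pos.2 hs'
    · rw [Function.update_of_ne hj]
      exact hbpos j

theorem erase_split {l : List ℕ} {i : ℕ} (hn : l.Nodup) (hi : i ∈ l) :
    ∃ L T, l = L ++ i :: T ∧ l.erase i = L ++ T := by
  obtain ⟨L, T, rfl⟩ := List.append_of_mem hi
  refine ⟨L, T, rfl, ?_⟩
  have hiL : i ∉ L := fun h1 => (List.nodup_append'.1 hn).2.2 h1 List.mem_cons_self
  rw [List.erase_append_right _ hiL, List.erase_cons_head]

theorem loopColoop : LoopColoopStmt := by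
  constructor
  · intro l r i hn hi _ z hz
    obtain ⟨L, T, rfl, he⟩ := erase_split hn hi
    rw [he] at hz
    have := closure_mono (loop_mem L T i r hn) hz
    rwa [closure_closure] at this
  · intro l r i hn hi hr _ z hz
    obtain ⟨L, T, rfl, he⟩ := erase_split hn hi
    obtain ⟨r', rfl⟩ : ∃ r', r = r' + 1 := ⟨r - 1, by omega⟩
    rw [he, Nat.add_sub_cancel] at hz
    have hcont : Continuous (addco i : (Finset ℕ → ℝ) → Finset ℕ → ℝ) := by
      apply continuous_pi
      intro I
      unfold addco
      by_cases h : i ∈ I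
      · simp only [h, if_true]
        exact continuous_apply _
      · simp only [h, if_false]
        exact continuous_const
    have := map_mem_closure hcont hz (coloop_mem L T i r' hn)
    rwa [closure_closure] at this

end ABCT.H53
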